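import Pool.Agent.X321.CV.Inj
import Pool.Agent.X321.CV.Dvr

set_option autoImplicit false

/-!
# The constants in the polylogarithmic complexes `Γ(X,n) ⊗ ℚ` of a curve `X`

Let `X` be a curve over a field `k` with function field `F`, `φ : k → F`, and `n ≥ 2`.

* Let `K` be the residue field of a closed point of `X`, separable over `k` (or any field `K` over
  `k` such that `F` embeds over `k` into `K((t))`). Every class of `H^i(Γ(k,n) ⊗ ℚ)` which becomes
  zero in `H^i(Γ(X,n) ⊗ ℚ)` becomes zero in `H^i(Γ(K,n) ⊗ ℚ)`.
* For all `X`: every class of `H^i(Γ(k,n) ⊗ ℚ)` which becomes zero in `H^i(Γ(X,n) ⊗ ℚ)` becomes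
  zero in `H^i(Γ(Ω,n) ⊗ ℚ)`, where `Ω` is the algebraic closure of `k`.
* If `X` has a rational point (there is a discrete valuation ring `O` with fraction field `F`, and
  `k → O` which induces an isomorphism of `k` with the residue field), or if `F` embeds over `k` into
  `k((t))`, or if `k` is algebraically closed, then `Γ(k,n) ⊗ ℚ → Γ(X,n) ⊗ ℚ` is injective on all
  terms and on all cohomology groups.

On the side of `K`-theory the corresponding statements hold, by the functoriality of `K`-theory
with respect to `Spec K → X → Spec k`.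

The definitions are in `Pool/Agent/H39R2/GonP/Defs.lean` (`Differentials`),
`Pool/Agent/TH358/BG/Defs.lean` (`GT`, `gd`, `XT`, `Res`, `tot`), `Pool/Agent/TH358/GP/Defs.lean`
(`Induced`, `InducedL`), `Pool/Agent/X321/CV/Curve.lean` (`GInd`, `DiesInField`, `DiesInCurve`,
`IsZeroIn`) and `Pool/Agent/X321/CV/Inj.lean` (`ConstInjective`).
-/

namespace Pool.Agent.Results.MP_bae8ce_ag.ConstantsAndPoints

open GonP Pool.Agent.TH358.BG Pool.Agent.X321.HS Pool.Agent.X321.CV

theorem result :
    -- a closed point with residue field `K`, separable over `k`: `F` embeds into `K((t))`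
    (∀ (k K F : Type) [Field k] [Field K] [Field F] (φ : k →+* F) (ψ : k →+* K)
        (χ : F →+* LaurentSeries K), χ.comp φ = HahnSeries.C.comp ψ →
      ∀ (X : Type) (κ : X → Type) [∀ x, Field (κ x)] (DF : Differentials F)
        (Dκ : ∀ x, Differentials (κ x)) (res : Res F κ) (DK : Differentials K) (m j : ℕ),
      (∀ a, DiesInCurve φ DF Dκ res m j a → DiesInField ψ DK m j a) ∧
        ∀ a, IsZeroIn φ m j a → IsZeroIn ψ m j a) ∧
    -- arbitrary curves: the algebraic closure of the field of constants
    (∀ (k F : Type) [Field k] [Field F] (φ : k →+* F)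
        (X : Type) (κ : X → Type) [∀ x, Field (κ x)] (DF : Differentials F)
        (Dκ : ∀ x, Differentials (κ x)) (res : Res F κ) (DΩ : Differentials (AlgebraicClosure k))
        (m j : ℕ),
      (∀ a, DiesInCurve φ DF Dκ res m j a →
        DiesInField (algebraMap k (AlgebraicClosure k)) DΩ m j a) ∧
        ∀ a, IsZeroIn φ m j a → IsZeroIn (algebraMap k (AlgebraicClosure k)) m j a) ∧
    -- a rational point with local ring `O`
    (∀ (k F O : Type) [Field k] [Field F] [CommRing O] [IsDomain O] [IsDiscreteValuationRing O]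
        [Algebra O F] [IsFractionRing O F] (φ : k →+* O),
      Function.Bijective ((IsLocalRing.residue O).comp φ) →
        ConstInjective ((algebraMap O F).comp φ)) ∧
    -- `F` embeds into `k((t))`
    (∀ (k F : Type) [Field k] [Field F] (φ : k →+* F) (χ : F →+* LaurentSeries k),
      χ.comp φ = HahnSeries.C → ConstInjective φ) ∧
    -- algebraically closed field of constants
    ∀ (k F : Type) [Field k] [Field F] [IsAlgClosed k] (φ : k →+* F), ConstInjective φ := by
  refine ⟨?_, ?_, ?_, ?_, ?_⟩
  · intro k K F _ _ _ φ ψ χ h X κ _ DF Dκ res DK m j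
    have hk := kernel_square φ ψ χ HahnSeries.C h.symm (cohInj_laurent K)
    exact ⟨fun a => dies φ ψ hk DF Dκ res DK m j a, fun a => isZero φ ψ hk m j a⟩
  · intro k F _ _ φ X κ _ DF Dκ res DΩ m j
    have hk := kernel_algClosure φ
    exact ⟨fun a => dies φ _ hk DF Dκ res DΩ m j a, fun a => isZero φ _ hk m j a⟩
  · intro k F O _ _ _ _ _ _ _ φ h
    obtain ⟨χ, hχ⟩ := exists_laurent (F := F) φ h
    exact constInj_laurent _ χ hχ
  · intro k F _ _ φ χ h
    exact constInj_laurent φ χ h
  · intro k F _ _ _ φ
    exact constInj_algClosed φ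

end Pool.Agent.Results.MP_bae8ce_ag.ConstantsAndPoints
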